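import Pool.Agent.X119.MilZ

set_option autoImplicit false

/-!
# Powers `θ ^ (q ^ n)` that run through runs of distinct zeros of several Dirichlet L-functions

Mills' theorem gives `θ, q > 1` such that the integer part of `θ ^ (q ^ n)` is prime for every `n`.  Here a
finite family of primitive Dirichlet characters `χ j` modulo `k j` (of any moduli) and a sequence `σ` in the index
set are given, and the power `θ ^ (q ^ n)` is required to be extremely close to the first ordinate of a run of
`m j + 1` consecutive zeros of `L(s, χ j)`, `j = σ n`, that are simple, on the critical line and the only zeros of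
`L(s, χ j)` in this range of heights.  Unconditionally, the `θ` with this property for all large `n` have
Hausdorff dimension `1`, with the tolerance `exp (-o(q ^ n))`.
-/

namespace Pool.Agent.Results.MP_f259ea_nt.MillsSequences

open Filter Complex

/-- the multiplicity of `s` as a zero of `L(s, χ)` -/
noncomputable def mult {k : ℕ} [NeZero k] (χ : DirichletCharacter ℂ k) (s : ℂ) : ℕ :=
  analyticOrderNatAt (DirichletCharacter.LFunction χ) s

/-- the constant `c(h) = h/2 + cot(h/√2)/√2` -/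
noncomputable def c (h : ℝ) : ℝ := h / 2 + Real.cot (h / Real.sqrt 2) / Real.sqrt 2

/-- the points `t` which start a run `t = u 0 < u 1 < ... < u m` of ordinates of simple zeros `1/2 + i u j` of
`L(s, χ)`, of total length at most `B / log t`, such that no other number in `[u 0, u m]` is the ordinate of a
nontrivial zero of `L(s, χ)` -/
def RunStart {k : ℕ} [NeZero k] (χ : DirichletCharacter ℂ k) (m : ℕ) (B : ℝ) : Set ℝ :=
  {t : ℝ | ∃ u : Fin (m + 1) → ℝ, StrictMono u ∧ u 0 = t ∧
    (∀ j, DirichletCharacter.LFunction χ (1 / 2 + I * u j) = 0 ∧ mult χ (1 / 2 + I * u j) = 1) ∧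
    (∀ s : ℂ, DirichletCharacter.LFunction χ s = 0 → 0 < s.re → s.re < 1 → u 0 ≤ s.im →
      s.im ≤ u (Fin.last m) → ∃ j, s.im = u j) ∧ u (Fin.last m) - u 0 ≤ B / Real.log t}

/-- the points `t` which start such a run for which moreover the `1/2 + i u j` are the only nontrivial zeros of
`L(s, χ)`, on or off the critical line, with ordinate in `[u 0, u m]` -/
def PureStart {k : ℕ} [NeZero k] (χ : DirichletCharacter ℂ k) (m : ℕ) (B : ℝ) : Set ℝ :=
  {t : ℝ | ∃ u : Fin (m + 1) → ℝ, StrictMono u ∧ u 0 = t ∧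
    (∀ j, DirichletCharacter.LFunction χ (1 / 2 + I * u j) = 0 ∧ mult χ (1 / 2 + I * u j) = 1) ∧
    (∀ s : ℂ, DirichletCharacter.LFunction χ s = 0 → 0 < s.re → s.re < 1 → u 0 ≤ s.im →
      s.im ≤ u (Fin.last m) → ∃ j, s = 1 / 2 + I * u j) ∧ u (Fin.last m) - u 0 ≤ B / Real.log t}

/-- for all `σ` and all `δ n > 0` with `δ n ≥ exp (-ε q ^ n)` for all large `n`, for each `ε > 0`: in every open
set that meets `(1, ∞)` the `θ > 1` such that `θ ^ (q ^ n)` is within `δ n` of an element of `A (σ n)`, for all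
large `n`, form a set of Hausdorff dimension `1` -/
def Full {J : Type} (A : J → Set ℝ) (q : ℝ) : Prop :=
  ∀ (σ : ℕ → J) (δ : ℕ → ℝ), (∀ n, 0 < δ n) →
    (∀ ε : ℝ, 0 < ε → ∀ᶠ n : ℕ in atTop, Real.exp (-(ε * q ^ n)) ≤ δ n) →
    ∀ U : Set ℝ, IsOpen U → (U ∩ Set.Ioi 1).Nonempty →
      dimH {θ : ℝ | θ ∈ U ∧ 1 < θ ∧ ∃ N : ℕ, ∀ n : ℕ, N ≤ n →
        ∃ a ∈ A (σ n), |θ ^ (q ^ n) - a| ≤ δ n} = 1

/-- Let `χ j`, `j` in a finite set `J`, be primitive Dirichlet characters modulo `k j`, let `m j` be run lengths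
and `0 < h < 1 - 1/q`.  If `2 - c(h) - (m j + 1) (c(h) - 1) / 2 > 0` for all `j`, then there are `B j` such that
the family of the `PureStart (χ j) (m j) (B j)` is `Full` for `q`; with `m j` in place of the factor `m j + 1`
this holds for the `RunStart (χ j) (m j) (B j)`.  Here `c(h) ≤ 1/h + h/3`. -/
theorem result :
    (∀ (J : Type) [Finite J] (k : J → ℕ) [∀ j, NeZero (k j)] (χ : ∀ j, DirichletCharacter ℂ (k j)),
      (∀ j, (χ j).IsPrimitive) → ∀ (m : J → ℕ) (h q : ℝ), 0 < h → 1 < q → h < 1 - 1 / q →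
      ((∀ j, 0 < 2 - c h - (m j + 1) * ((c h - 1) / 2)) →
        ∃ B : J → ℝ, Full (fun j => PureStart (χ j) (m j) (B j)) q) ∧
      ((∀ j, 0 < 2 - c h - m j * ((c h - 1) / 2)) →
        ∃ B : J → ℝ, Full (fun j => RunStart (χ j) (m j) (B j)) q)) ∧
    ∀ h : ℝ, 0 < h → h ≤ 1 → c h ≤ 1 / h + h / 3 := by
  refine ⟨fun J _ k _ χ hχ m h q h0 hq hh => ?_, H295SI.cc_le⟩
  exact Pool.Agent.X119.MilZ.mills_runs_family
    (fun j => DirichletCharacter.LFunction (χ j)) (fun j => H370.good_dirichlet (χ j) (hχ j))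
    m h q h0 hq hh

end Pool.Agent.Results.MP_f259ea_nt.MillsSequences
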