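import Pool.Agent.Results.MP_f259ea_nt.EveryShortInterval
import Pool.Agent.X16.ZP.C

/-!
# Distinct zeros of Dirichlet L-functions in ALL very short intervals near the powers of almost every real number

Unconditionally, for almost all real `t > 1`: for ALL primitive Dirichlet characters `χ` modulo `q > 1`, all `0 < η < 1`,
`θ < η`, `ε > 0`, `j ≥ 1` and all large `n`, with `x = t ^ n` (or `t ^ κ_n`, `κ_n / log n → ∞`), ALL intervals `(u, u + H]` with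
`|u - x| ≤ x ^ θ`, `x ^ η ≤ H ≤ x / 20` satisfy
`N_d ≥ ((2 j + 1 - c((1 + η) / 2)) / (j (j + 1)) - ε) N + (excess) / (j (j + 1)) + (j² + 1) / (2 j (j + 1)) N_off`,
in particular `N_d ≥ (17 / 36) N` for every `η > 0`. For each choice of the parameters the exceptional `t` have
Hausdorff dimension less than `1`. In the starting results the bound with `c((1 + η) / 2)` is proved for almost all
intervals, with a power saving; for EVERY interval there is only the bound with `c(η)`.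
-/

set_option autoImplicit false

open Filter Topology MeasureTheory

namespace Pool.Agent.Results.MP_f259ea_nt.ShortIntervalsAtPowers

open Pool.Agent.Results.MP_f259ea_nt.EveryShortInterval
open Pool.Agent.X16.NW (AlongPowers)

/-- the inequality `Bound χ j ((1 + η) / 2) ε` holds in all intervals `(u, u + H]` with `|u - x| ≤ x ^ θ` and
`x ^ η ≤ H ≤ x / 20` -/
def AllNear {q : ℕ} [NeZero q] (χ : DirichletCharacter ℂ q) (j : ℕ) (η θ ε x : ℝ) : Prop :=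
  ∀ u H : ℝ, |u - x| ≤ x ^ θ → x ^ η ≤ H → H ≤ x / 20 → Bound χ j ((1 + η) / 2) ε u (u + H)

lemma allNear_of {q : ℕ} [NeZero q] (χ : DirichletCharacter ℂ q) {j : ℕ} (hj : 1 ≤ j)
    {η θ ε x : ℝ} (hε : 0 < ε)
    (h : Pool.Agent.X16.ZP.DI (DirichletCharacter.LFunction χ) j η θ ε x) : AllNear χ j η θ ε x :=
  fun u H hu h1 h2 => bound_of χ hj hε (h u H hu h1 h2)

/-- the last two terms are not negative -/
lemma drop {q : ℕ} [NeZero q] (χ : DirichletCharacter ℂ q) (j : ℕ) (h ε T₁ T₂ : ℝ)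
    (hb : Bound χ j h ε T₁ T₂) :
    ((2 * j + 1 - c h) / (j * (j + 1)) - ε) * (N χ T₁ T₂ : ℝ) ≤ (Nd χ T₁ T₂ : ℝ) := by
  unfold Bound at hb
  have e1 : (0 : ℝ) ≤ (excess χ j T₁ T₂ : ℝ) / (j * (j + 1)) := by positivity
  have e2 : (0 : ℝ) ≤ ((j : ℝ) ^ 2 + 1) / (2 * j * (j + 1)) * (Noff χ T₁ T₂ : ℝ) := by positivity
  linarith

lemma ne_one_of {q : ℕ} [NeZero q] {χ : DirichletCharacter ℂ q} (hχ : χ.IsPrimitive) (hq : 1 < q) :
    χ ≠ 1 := by
  rintro rfl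
  have h1 : (1 : DirichletCharacter ℂ q).conductor = q := hχ
  rw [DirichletCharacter.conductor_one] at h1
  omega

/-- the countable set of the primitive characters modulo `q ≥ 2` -/
def Chars : Type := Σ m : ℕ, {χ : DirichletCharacter ℂ (m + 2) // χ.IsPrimitive}

instance : Countable Chars := by
  unfold Chars
  infer_instance

/-- **Theorem.** Distinct zeros of Dirichlet L-functions in all very short intervals near `t ^ κ_n`. -/
theorem result :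
    (∀ (q : ℕ) [NeZero q] (χ : DirichletCharacter ℂ q), 1 < q → χ.IsPrimitive →
      ∀ (j : ℕ) (η θ ε : ℝ), 1 ≤ j → 0 < η → η < 1 → θ < η → 0 < ε →
      ∃ δ : ℝ, 0 < δ ∧ δ < 1 ∧ AlongPowers (1 - δ) 0 (fun _ x => AllNear χ j η θ ε x)) ∧
    (∀ κ : ℕ → ℝ, Tendsto (fun n : ℕ => κ n / Real.log n) atTop atTop → ∀ᵐ t : ℝ, 1 < t →
      ∀ (q : ℕ) [NeZero q] (χ : DirichletCharacter ℂ q), 1 < q → χ.IsPrimitive →
      (∀ (j : ℕ) (η θ ε : ℝ), 1 ≤ j → 0 < η → η < 1 → θ < η → 0 < ε →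
        ∃ n₀ : ℕ, ∀ n : ℕ, n₀ ≤ n → AllNear χ j η θ ε (t ^ κ n)) ∧
      (∀ η θ : ℝ, 0 < η → η < 1 → θ < η → ∃ n₀ : ℕ, ∀ n : ℕ, n₀ ≤ n → ∀ u H : ℝ,
        |u - t ^ κ n| ≤ (t ^ κ n) ^ θ → (t ^ κ n) ^ η ≤ H → H ≤ t ^ κ n / 20 →
          17 / 36 * (N χ u (u + H) : ℝ) ≤ (Nd χ u (u + H) : ℝ))) ∧
    (∀ h : ℝ, 0 < h → h ≤ 1 → c h ≤ 1 / h + h / 3) := by
  refine ⟨fun q _ χ hq hχ j η θ ε hj h0 h1 h2 hε => ?_, fun κ hκ => ?_, H295SI.cc_le⟩
  · obtain ⟨δ, hδ, hδ1, h⟩ := Pool.Agent.X16.ZP.distinct_fam j hj (H370.good_dirichlet χ hχ)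
      (Pool.Agent.TH822.AA.bz_d χ hχ (ne_one_of hχ hq)) η θ ε h0 h1 h2 hε
    exact ⟨δ, hδ, hδ1, Pool.Agent.X16.ZP.along_mono (fun _ _ hx => allNear_of χ hj hε hx)
      (Pool.Agent.X16.ZP.along_powers_pos h)⟩
  · filter_upwards [Pool.Agent.X16.ZP.distinct_ae (ι := Chars)
      (fun i => DirichletCharacter.LFunction i.2.1)
      (fun i => H370.good_dirichlet i.2.1 i.2.2)
      (fun i => Pool.Agent.TH822.AA.bz_d i.2.1 i.2.2 (ne_one_of i.2.2 (by omega))) κ hκ]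
      with t ht ht1 q hq0 χ hq hχ
    have part : ∀ (j : ℕ) (η θ ε : ℝ), 1 ≤ j → 0 < η → η < 1 → θ < η → 0 < ε →
        ∃ n₀ : ℕ, ∀ n : ℕ, n₀ ≤ n → AllNear χ j η θ ε (t ^ κ n) := by
      intro j η θ ε hj h0 h1 h2 hε
      obtain ⟨m, rfl⟩ : ∃ m : ℕ, q = m + 2 := ⟨q - 2, by omega⟩
      obtain ⟨n₀, hn⟩ := ht ht1 ⟨m, χ, hχ⟩ j η θ ε hj h0 h1 h2 hε
      exact ⟨n₀, fun n hn1 => allNear_of χ hj hε (hn n hn1)⟩
    refine ⟨part, fun η θ h0 h1 h2 => ?_⟩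
    have hx : c ((1 + η) / 2) ≤ 1 / ((1 + η) / 2) + (1 + η) / 2 / 3 :=
      H295SI.cc_le _ (by linarith) (by linarith)
    have hx1 : 1 / ((1 + η) / 2) + (1 + η) / 2 / 3 < 13 / 6 := by
      have e : 1 / ((1 + η) / 2) = 2 / (1 + η) := by field_simp
      rw [e, ← lt_sub_iff_add_lt, div_lt_iff₀ (by linarith)]
      nlinarith
    obtain ⟨n₀, hn⟩ := part 2 η θ ((13 / 6 - c ((1 + η) / 2)) / 6) (by norm_num) h0 h1 h2
      (by linarith)
    refine ⟨n₀, fun n hn1 u H hu hH1 hH2 => ?_⟩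
    refine le_trans (le_of_eq ?_) (drop _ _ _ _ _ _ (hn n hn1 u H hu hH1 hH2))
    congr 1
    push_cast
    ring

end Pool.Agent.Results.MP_f259ea_nt.ShortIntervalsAtPowers
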