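import Pool.Agent.TH803.CL.NearS
import Pool.Agent.TH803.UC.Sets
import Pool.Agent.H370R2.DirGood
import Pool.Agent.H295R2.SI.Fin

/-!
# Distinct zeros of Dirichlet L-functions in short intervals, beyond the Montgomery-Taylor threshold

Unconditionally there are absolute constants `κ > 0` and `h₀ < 1` (they depend neither on the modulus
nor on the character) such that for every modulus `q ≥ 1`, every primitive Dirichlet character `χ`
modulo `q`, every large `T` and EVERY interval `(T, T + H]` with `T ^ h₀ ≤ H ≤ T` one has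
`N_d(T, T + H) ≥ ((3 - c)/2 + κ) N(T, T + H)`, `c = 1/2 + cot(1/√2)/√2 ≤ 1.3275`. Moreover, for
`0 < δ ≤ 1/30`, at least `((3 - c)/2 + κ - 37 δ²) N(T, T + H)` of the distinct zeros in the right half of
the critical strip can be chosen such that each of them within `δ / log T` of the critical line has
distance at least `δ / log T` from all the others.
-/

open Filter Topology Complex

namespace Pool.Agent.Results.MP_f259ea_nt.ShortIntervalsBeyondMT

/-- the multiplicity of `s` as a zero of `L(s, χ)` -/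
noncomputable def mult {q : ℕ} [NeZero q] (χ : DirichletCharacter ℂ q) (s : ℂ) : ℕ :=
  analyticOrderNatAt (DirichletCharacter.LFunction χ) s

/-- the nontrivial zeros of `L(s, χ)` with ordinate in `(T₁, T₂]` -/
def zeros {q : ℕ} [NeZero q] (χ : DirichletCharacter ℂ q) (T₁ T₂ : ℝ) : Set ℂ :=
  {s : ℂ | DirichletCharacter.LFunction χ s = 0 ∧ 0 < s.re ∧ s.re < 1 ∧ T₁ < s.im ∧ s.im ≤ T₂}

/-- the number of nontrivial zeros with ordinate in `(T₁, T₂]`, counted with multiplicity -/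
noncomputable def N {q : ℕ} [NeZero q] (χ : DirichletCharacter ℂ q) (T₁ T₂ : ℝ) : ℕ :=
  ∑ᶠ s ∈ zeros χ T₁ T₂, mult χ s

/-- the number of distinct nontrivial zeros with ordinate in `(T₁, T₂]` -/
noncomputable def Nd {q : ℕ} [NeZero q] (χ : DirichletCharacter ℂ q) (T₁ T₂ : ℝ) : ℕ :=
  (zeros χ T₁ T₂).ncard

/-- the inverse of the Montgomery-Taylor constant -/
noncomputable def c : ℝ := 1 / 2 + Real.cot (1 / Real.sqrt 2) / Real.sqrt 2

section

variable {q : ℕ} [NeZero q] (χ : DirichletCharacter ℂ q) (T₁ T₂ : ℝ)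

theorem zeros_eq : zeros χ T₁ T₂ = H370.zset (DirichletCharacter.LFunction χ) T₁ T₂ := by
  ext s
  simp only [zeros, H370.zset, Set.mem_ofPred_eq]
  tauto

/-- the sets of zeros that are counted are finite -/
theorem zeros_finite (hχ : χ.IsPrimitive) (h : 0 < T₁) : (zeros χ T₁ T₂).Finite := by
  rw [zeros_eq]
  exact H370.zset_finite' (H370.good_dirichlet χ hχ) T₁ T₂ h

theorem N_eq : N χ T₁ T₂ = H370.NN (DirichletCharacter.LFunction χ) T₁ T₂ := by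
  unfold N H370.NN
  rw [zeros_eq]
  rfl

end

/-- the theorem on separated sets, with the constants of the library -/
theorem main : ∃ κ h₀ : ℝ, 0 < κ ∧ 0 < h₀ ∧ h₀ < 1 ∧
    ∀ (q : ℕ) [NeZero q] (χ : DirichletCharacter ℂ q), χ.IsPrimitive →
    ∀ δ : ℝ, 0 < δ → δ ≤ 1 / 30 → ∃ T₀ : ℝ, 10 ≤ T₀ ∧ ∀ T : ℝ, T₀ ≤ T → ∀ H : ℝ, T ^ h₀ ≤ H → H ≤ T →
      ∃ M : Finset ℂ, (∀ s ∈ M, s ∈ zeros χ T (T + H) ∧ 1 / 2 ≤ s.re) ∧
        (∀ a ∈ M, ∀ b ∈ M, a ≠ b → a.re < 1 / 2 + δ / Real.log T →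
          δ / Real.log T ≤ ‖a - b‖) ∧
        ((3 - c) / 2 + κ - 37 * δ ^ 2) * (N χ T (T + H) : ℝ) ≤ (M.card : ℝ) := by
  obtain ⟨κ, h0, hκ, hh0, hh1, hsep⟩ := TH803CL.sepS_near
  refine ⟨κ / 2, h0, by positivity, hh0, hh1, fun q _ χ hχ δ hδ0 hδ1 => ?_⟩
  have hF := H370.good_dirichlet χ hχ
  obtain ⟨T0, hT0, hmain⟩ := hsep _ hF δ hδ0 hδ1
  refine ⟨T0, hT0, fun T hT H hH1 hH2 => ?_⟩
  obtain ⟨M, hM, hMre, hs, hcount⟩ := hmain T hT H hH1 hH2
  have hT1 : 1 ≤ T := by linarith [hT0.trans hT]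
  refine ⟨M, fun s hs => ⟨?_, hMre s hs⟩, fun a ha b hb hab h1 => ?_, ?_⟩
  · rw [zeros_eq]
    exact (H370.mem_Zf hF hT1).mp (hM hs)
  · exact hs a ha b hb hab (Or.inl (by linarith))
  · rw [N_eq]
    have e1 : (3 - c + κ - 74 * δ ^ 2) *
      (H370.NN (DirichletCharacter.LFunction χ) T (T + H) : ℝ) ≤ 2 * (M.card : ℝ) := hcount
    linarith

/-- **distinct zeros of Dirichlet L-functions in short intervals** -/
theorem result : (∃ κ h₀ : ℝ, 0 < κ ∧ 0 < h₀ ∧ h₀ < 1 ∧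
    ∀ (q : ℕ) [NeZero q] (χ : DirichletCharacter ℂ q), χ.IsPrimitive →
      -- the number of distinct zeros in short intervals
      (∃ T₀ : ℝ, ∀ T : ℝ, T₀ ≤ T → ∀ H : ℝ, T ^ h₀ ≤ H → H ≤ T →
        ((3 - c) / 2 + κ) * (N χ T (T + H) : ℝ) ≤ (Nd χ T (T + H) : ℝ)) ∧
      -- separated sets of distinct zeros in the right half of the critical strip
      (∀ δ : ℝ, 0 < δ → δ ≤ 1 / 30 → ∃ T₀ : ℝ, ∀ T : ℝ, T₀ ≤ T → ∀ H : ℝ, T ^ h₀ ≤ H → H ≤ T →
        ∃ M : Finset ℂ, (∀ s ∈ M, s ∈ zeros χ T (T + H) ∧ 1 / 2 ≤ s.re) ∧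
          (∀ a ∈ M, ∀ b ∈ M, a ≠ b → a.re < 1 / 2 + δ / Real.log T →
            δ / Real.log T ≤ ‖a - b‖) ∧
          ((3 - c) / 2 + κ - 37 * δ ^ 2) * (N χ T (T + H) : ℝ) ≤ (M.card : ℝ))) ∧
    c ≤ 1.3275 := by
  refine ⟨?_, TH803UC.cc_lt⟩
  obtain ⟨κ, h0, hκ, hh0, hh1, hm⟩ := main
  refine ⟨κ / 2, h0, by positivity, hh0, hh1, fun q _ χ hχ => ⟨?_, fun δ hδ0 hδ1 => ?_⟩⟩
  · set δ := min (1 / 30) (κ / 74) with hδ
    have hδ0 : 0 < δ := by positivity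
    have hδ1 : δ ≤ 1 / 30 := min_le_left _ _
    have hδ2 : δ ≤ κ / 74 := min_le_right _ _
    obtain ⟨T0, hT0, h1⟩ := hm q χ hχ δ hδ0 hδ1
    refine ⟨T0, fun T hT H hH1 hH2 => ?_⟩
    obtain ⟨M, hM, -, hcard⟩ := h1 T hT H hH1 hH2
    have hfin := zeros_finite χ T (T + H) hχ (by linarith)
    have h2 : M.card ≤ Nd χ T (T + H) := by
      unfold Nd
      rw [Set.ncard_eq_toFinset_card _ hfin]
      refine Finset.card_le_card fun s hs => ?_
      rw [Set.Finite.mem_toFinset]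
      exact (hM s hs).1
    have h3 : (M.card : ℝ) ≤ Nd χ T (T + H) := by exact_mod_cast h2
    refine le_trans ?_ (hcard.trans h3)
    apply mul_le_mul_of_nonneg_right _ (Nat.cast_nonneg _)
    have h4 : 37 * δ ^ 2 ≤ κ / 2 := by nlinarith
    linarith
  · obtain ⟨T0, hT0, h1⟩ := hm q χ hχ δ hδ0 hδ1
    refine ⟨T0, fun T hT H hH1 hH2 => ?_⟩
    obtain ⟨M, hM, hs, hcard⟩ := h1 T hT H hH1 hH2
    refine ⟨M, hM, hs, le_trans ?_ hcard⟩
    apply mul_le_mul_of_nonneg_right _ (Nat.cast_nonneg _)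
    linarith

end Pool.Agent.Results.MP_f259ea_nt.ShortIntervalsBeyondMT
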