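import Pool.Agent.X113.VGC

/-!
# Almost all zeros of the L-functions modulo `q` are simple and distinct: a criterion for the primes `≡ 1` modulo `q`

Let `q ≥ 1`, `0 < s ≤ 1` and

`A_s(v) = (φ(q) / (s √(2π))) ∑_{n ≡ 1 (q)} Λ(n) n^(-1/2) exp(-((v - log n)/s)² / 2) - exp(v/2 + s²/8)`,

the error term for the primes `≡ 1` modulo `q` around `x = e^v`, with a Gaussian weight of width `s` in `log n`. Let
`MS(s, V) = (1/V) ∫_0^V A_s(v)² dv`, and let `M(γ)` be the sum of the orders of all the `L(s, χ)`, `χ` modulo `q`, at `1/2 + iγ`.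

* If GRH holds modulo `q`, then `MS(s, V) → ∑_γ M(γ)² exp(-(sγ)²)` for `V → ∞` (a convergent sum over the distinct `γ`);
  otherwise `MS(s, V) → ∞`.
* Unconditionally `MS(s, V) ≥ (1 - ε) (φ(q) / (2√π)) (1/s) log(1/s)` for `s` small and `V` large in terms of `s`.
* Equivalent: (a) `MS(s, V) ~ (φ(q) / (2√π)) (1/s) log(1/s)` (first `V → ∞`, then `s → 0`); (b) the upper bound with the
  factor `1 + ε` for small `s` and for arbitrarily large `V`, as sparse as one likes; (c) GRH modulo `q` and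
  `∑_{0 < γ ≤ T} (M(γ)² - M(γ)) = o(T log T)`: almost all the zeros of `∏_χ L(s, χ)` are simple.
* (c) implies `N_d(T, 2T) / N(T, 2T) → 1` for every character `χ` modulo `q`.

So the upper bound (b) for all `q` implies a positive answer to the question.

Idea of the proof. The explicit formula with a Gaussian weight of width `s` gives
`A_s(v) = -∑_γ M(γ) exp(-(sγ)²/2) cos(γv) + o(1)` under GRH. If the mean square is bounded for a sequence of `V`, then
the Laplace transforms of `A_s` truncated at `V` are `O(V)` in `Re w ≥ a > 0` and exponentially close to the full transform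
in `Re w ≥ 3/2`; by the theorem of three circles this excludes zeros with `Re s > 1/2`. The sums `∑_γ M(γ) exp(-(sγ)²)`
are known from the number of zeros, and `M² ≥ M`.
-/

set_option autoImplicit false

open Filter Topology MeasureTheory

namespace Pool.Agent.Results.MP_f259ea_nt.VarianceModQ

/-- the sum of the orders at `1/2 + iγ` of the L-functions of all the characters modulo `q` -/
noncomputable def M (q : ℕ) [NeZero q] (γ : ℝ) : ℕ :=
  ∑ χ : DirichletCharacter ℂ q, analyticOrderNatAt (DirichletCharacter.LFunction χ) (⟨1 / 2, γ⟩ : ℂ)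

open Classical in
/-- `A_s(v) = (φ(q) / (s √(2π))) ∑_{n ≡ 1 (q)} Λ(n) n^(-1/2) exp(-((v - log n)/s)² / 2) - exp(v/2 + s²/8)` -/
noncomputable def A (q : ℕ) [NeZero q] (s v : ℝ) : ℝ :=
  (Real.sqrt (2 * Real.pi) * s)⁻¹ * (q.totient * ∑' n : ℕ, if (n : ZMod q) = 1 then
    ArithmeticFunction.vonMangoldt n * (n : ℝ) ^ (-(1 / 2) : ℝ) * Real.exp (-(((v - Real.log n) / s) ^ 2) / 2) else 0) -
  Real.exp (v / 2 + s ^ 2 / 8)

/-- `MS(s, V) = (1/V) ∫_0^V A_s(v)² dv` -/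
noncomputable def MS (q : ℕ) [NeZero q] (s V : ℝ) : ℝ := (∫ v in (0:ℝ)..V, A q s v ^ 2) / V

/-- the main term `(φ(q) / (2√π)) (1/s) log(1/s)` -/
noncomputable def B (q : ℕ) (s : ℝ) : ℝ := q.totient / (2 * Real.sqrt Real.pi) * (Real.log (1 / s) / s)

/-- the generalized Riemann hypothesis modulo `q` -/
def GRH (q : ℕ) [NeZero q] : Prop := ∀ (χ : DirichletCharacter ℂ q) (s : ℂ), 0 < s.re → s.re < 1 →
  DirichletCharacter.LFunction χ s = 0 → s.re = 1 / 2

/-- almost all the zeros of `∏_χ L(s, χ)` on the critical line are simple: `∑_{0 < γ ≤ T} (M² - M) = o(T log T)` -/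
def AlmostSimple (q : ℕ) [NeZero q] : Prop :=
  Tendsto (fun T : ℝ => (∑ᶠ γ ∈ Set.Ioc (0:ℝ) T, ((M q γ : ℝ) ^ 2 - M q γ)) / (T * Real.log T)) atTop (𝓝 0)

variable {q : ℕ} [NeZero q]

/-- the nontrivial zeros of `L(s, χ)` with ordinate in `(T₁, T₂]` -/
def zeros (χ : DirichletCharacter ℂ q) (T₁ T₂ : ℝ) : Set ℂ :=
  {ρ : ℂ | 0 < ρ.re ∧ ρ.re < 1 ∧ T₁ < ρ.im ∧ ρ.im ≤ T₂ ∧ DirichletCharacter.LFunction χ ρ = 0}

/-- their number, counted with multiplicity -/
noncomputable def N (χ : DirichletCharacter ℂ q) (T₁ T₂ : ℝ) : ℕ :=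
  ∑ᶠ ρ ∈ zeros χ T₁ T₂, analyticOrderNatAt (DirichletCharacter.LFunction χ) ρ

/-- the number of distinct zeros -/
noncomputable def Nd (χ : DirichletCharacter ℂ q) (T₁ T₂ : ℝ) : ℕ := (zeros χ T₁ T₂).ncard

lemma MS_eq (q : ℕ) [NeZero q] : MS q = Pool.Agent.X113.VG.MS q := rfl

lemma AS_iff : AlmostSimple q ↔ Pool.Agent.X113.VG.AS q := by
  unfold AlmostSimple Pool.Agent.X113.VG.AS
  simp only [Pool.Agent.X113.VG.Sx_finsum]
  rfl

/-- **the criterion** -/
theorem result (q : ℕ) [NeZero q] :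
    -- the mean square for a fixed width
    (∀ s : ℝ, 0 < s → s ≤ 1 →
      (GRH q → Summable (fun γ : ℝ => (M q γ : ℝ) ^ 2 * Real.exp (-((s * γ) ^ 2))) ∧
        Tendsto (MS q s) atTop (𝓝 (∑' γ : ℝ, (M q γ : ℝ) ^ 2 * Real.exp (-((s * γ) ^ 2))))) ∧
      (¬ GRH q → Tendsto (MS q s) atTop atTop)) ∧
    -- the lower bound
    (∀ ε : ℝ, 0 < ε → ∀ᶠ s : ℝ in 𝓝[>] 0, ∀ᶠ V : ℝ in atTop, (1 - ε) * B q s ≤ MS q s V) ∧
    -- the criterion
    [ ∀ ε : ℝ, 0 < ε → ∀ᶠ s : ℝ in 𝓝[>] 0, ∀ᶠ V : ℝ in atTop, |MS q s V / B q s - 1| ≤ ε,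
      ∀ ε : ℝ, 0 < ε → ∀ᶠ s : ℝ in 𝓝[>] 0, ∃ᶠ V : ℝ in atTop, MS q s V ≤ (1 + ε) * B q s,
      GRH q ∧ AlmostSimple q].TFAE ∧
    -- the consequence for every character
    (GRH q → AlmostSimple q → ∀ χ : DirichletCharacter ℂ q,
      Tendsto (fun T : ℝ => (Nd χ T (2 * T) : ℝ) / N χ T (2 * T)) atTop (𝓝 1)) := by
  refine ⟨fun s h0 h1 => ⟨fun hG => ⟨Pool.Agent.X113.VG.W_summ hG h0 h1, Pool.Agent.X113.VG.ms_grh hG h0 h1⟩,
    fun hn => Pool.Agent.X113.VG.ms_infinite hn h0 h1⟩,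
    fun ε hε => Pool.Agent.X113.VG.low_all hε, ?_, fun hG hA χ => Pool.Agent.X113.VG.ratio_of hG (AS_iff.1 hA) χ⟩
  rw [AS_iff]
  exact Pool.Agent.X113.VG.crit_freq

end Pool.Agent.Results.MP_f259ea_nt.VarianceModQ
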